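import Pool.Agent.H46.Wal2

namespace Pool.Agent.Results.MP_d27c5e_an.Unbdd

open MeasureTheory Finset Pool.Agent.H46.Wal

/-- `Q_n = ∑_{k=1}^n k^{α-1}` -/
noncomputable def Q (α : ℝ) (n : ℕ) : ℝ := ∑ k ∈ Icc 1 n, (k : ℝ) ^ (α - 1)

/-- the means `U_n^α f` -/
noncomputable def U (α : ℝ) (n : ℕ) (f : ℕ → G → ℝ) (x : G) : ℝ :=
  1 / Q α n * ∑ k ∈ Icc 1 n, ((n : ℝ) + 1 - k) ^ (α - 1) * S k f x

theorem Q_le {α : ℝ} (h0 : 0 < α) (h1 : α < 1) (n : ℕ) : Q α n ≤ 1 / α * (n : ℝ) ^ α := by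
  induction n with
  | zero => simp [Q, Real.zero_rpow h0.ne']
  | succ n ih =>
    unfold Q at ih ⊢
    rw [sum_Icc_succ_top (by omega)]
    push_cast
    have hn : (0 : ℝ) < n + 1 := by positivity
    have b := rpow_one_add_le_one_add_mul_self (s := -(1 / ((n : ℝ) + 1)))
      (by rw [neg_le_neg_iff, div_le_one hn]; linarith [Nat.cast_nonneg (α := ℝ) n]) h0.le h1.le
    rw [show 1 + -(1 / ((n : ℝ) + 1)) = n / (n + 1) by field_simp; ring,
      Real.div_rpow (by positivity) hn.le, div_le_iff₀ (by positivity)] at b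
    rw [Real.rpow_sub_one hn.ne']
    have : (n : ℝ) ^ α + α * (((n : ℝ) + 1) ^ α / (n + 1)) ≤ ((n : ℝ) + 1) ^ α := by
      have e : (1 + α * -(1 / ((n : ℝ) + 1))) * ((n : ℝ) + 1) ^ α
          = ((n : ℝ) + 1) ^ α - α * (((n : ℝ) + 1) ^ α / (n + 1)) := by ring
      linarith
    have h2 := mul_le_mul_of_nonneg_left this (show 0 ≤ 1 / α by positivity)
    rw [mul_add, ← mul_assoc, one_div_mul_cancel h0.ne', one_mul] at h2
    linarith

theorem result (α : ℝ) (h0 : 0 < α) (h1 : α < 1) (C : ℝ) :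
    ∃ (f : ℕ → G → ℝ) (n : ℕ), Martingale f F mu ∧ hp (1 / (1 + α)) f < ⊤ ∧
      ENNReal.ofReal C * hp (1 / (1 + α)) f < lp (1 / (1 + α)) (U α (2 ^ n) f) := by
  obtain ⟨f, n, hf, hf1, hf2⟩ := general (α := α) (θ := 2 ^ (α - 1)) (κ := 1) (K := 1 / α) h0 h1
    (by positivity) (Real.rpow_lt_one_of_one_lt_of_neg (by norm_num) (by linarith)) one_pos
    (by positivity) (fun j => ((j : ℝ) + 1) ^ (α - 1)) (Q α)
    (fun l => Real.rpow_le_rpow_of_nonpos (by positivity) (by push_cast; linarith) (by linarith))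
    (fun l => by
      rw [← Real.mul_rpow (by norm_num) (by positivity)]
      exact le_of_eq (by congr 1; push_cast; ring))
    (fun l => le_of_eq (by rw [one_mul]; congr 1; push_cast; ring))
    (fun N hN => sum_pos (fun k hk => Real.rpow_pos_of_pos
      (by have := (mem_Icc.1 hk).1; positivity) _) ⟨1, by simpa using hN⟩)
    (fun N _ => Q_le h0 h1 N) C
  refine ⟨f, n, hf, hf1, lt_of_lt_of_eq hf2 ?_⟩
  congr 1; funext x
  unfold U
  congr 1
  refine sum_congr rfl fun k hk => ?_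
  rw [Nat.cast_sub (mem_Icc.1 hk).2]
  congr 2; ring

end Pool.Agent.Results.MP_d27c5e_an.Unbdd
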